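import Mathlib

/-!
# A normed plane whose modulus `γ⁺` lies strictly below the Hilbert space value

The unit ball is a centrally symmetric convex polygon with sixty vertices, close to a regular
twelve-gon with its corners cut, and `ε = 1.466`.  For two points of the unit sphere at distance
`ε`, lying on the edges `i` and `j`, the value `⟨p₁ - p₂, x₁ - x₂⟩` is at most an affine function
of the positions of the two points on their edges, which is then bounded by its values at the four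
corners (exact integer arithmetic).
-/

set_option autoImplicit false

namespace Pool.Agent.Results.MP_a1f11a_an.PlaneBelowHilbert

open Set

/-- the norming functionals of `x` -/
def J1 (X : Type*) [NormedAddCommGroup X] [NormedSpace ℝ X] (x : X) : Set (X →L[ℝ] ℝ) :=
  {p | ‖p‖ = 1 ∧ p x = ‖x‖}

/-- the set of values `⟨p₁ - p₂, x₁ - x₂⟩` over unit vectors `x₁`, `x₂` at distance `ε` and
norming functionals `p₁`, `p₂` of them -/
def gammaSet (X : Type*) [NormedAddCommGroup X] [NormedSpace ℝ X] (ε : ℝ) : Set ℝ :=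
  {r | ∃ x₁ x₂ : X, ‖x₁‖ = 1 ∧ ‖x₂‖ = 1 ∧ ‖x₁ - x₂‖ = ε ∧
    ∃ p₁ ∈ J1 X x₁, ∃ p₂ ∈ J1 X x₂, r = (p₁ - p₂) (x₁ - x₂)}

/-- the modulus `γ⁺` -/
noncomputable def gammaPlus (X : Type*) [NormedAddCommGroup X] [NormedSpace ℝ X] (ε : ℝ) : ℝ :=
  sSup (gammaSet X ε)

/-- the modulus `γ⁻` -/
noncomputable def gammaMinus (X : Type*) [NormedAddCommGroup X] [NormedSpace ℝ X] (ε : ℝ) : ℝ :=
  sInf (gammaSet X ε)

/-! ### The polygon -/

/-- first coordinates of the first thirty vertices -/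
def lx : List ℤ :=
  [9992, 9965, 9909, 9821, 9694, 7613, 7438, 7254, 7046, 6798, 3194, 2919, 2655, 2383, 2080,
   -2080, -2383, -2655, -2919, -3194, -6798, -7046, -7254, -7438, -7613, -9694, -9821, -9909,
   -9965, -9992]

/-- second coordinates of the first thirty vertices -/
def ly : List ℤ :=
  [2080, 2383, 2655, 2919, 3194, 6798, 7046, 7254, 7438, 7613, 9694, 9821, 9909, 9965, 9992,
   9992, 9965, 9909, 9821, 9694, 7613, 7438, 7254, 7046, 6798, 3194, 2919, 2655, 2383, 2080]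

def vx (i : ℕ) : ℤ := if i % 60 < 30 then lx.getD (i % 60) 0 else -lx.getD (i % 60 - 30) 0
def vy (i : ℕ) : ℤ := if i % 60 < 30 then ly.getD (i % 60) 0 else -ly.getD (i % 60 - 30) 0

def dx (i : ℕ) : ℤ := vx (i + 1) - vx i
def dy (i : ℕ) : ℤ := vy (i + 1) - vy i
/-- twice the area of the triangle spanned by the edge `i` -/
def cc (i : ℕ) : ℤ := vx i * dy i - vy i * dx i
/-- `cc i` times the value at the vertex `a` of the functional belonging to the edge `i` -/
def GG (i a : ℕ) : ℤ := vx a * dy i - vy a * dx i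

def tab : List (List (ℕ × ℕ)) :=
  [[(0, 0), (24, 1), (24, 5), (24, 5), (23, 5), (21, 5), (21, 5), (21, 5), (22, 5), (22, 5),
    (22, 5), (22, 5), (23, 5), (23, 5), (24, 5), (24, 5)],
   [(0, 0), (23, 1), (23, 5), (23, 5), (21, 5), (21, 5), (21, 5), (21, 5), (22, 5), (22, 5),
    (22, 5), (22, 5), (22, 5), (23, 5), (23, 5), (24, 5)],
   [(0, 0), (22, 1), (22, 5), (20, 5), (20, 5), (20, 5), (20, 5), (21, 5), (21, 5), (21, 5),
    (21, 5), (21, 5), (22, 5), (23, 5), (23, 5), (23, 5)],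
   [(0, 0), (21, 3), (20, 5), (20, 5), (20, 5), (20, 5), (20, 5), (20, 5), (20, 5), (20, 5),
    (20, 5), (22, 5), (22, 5), (22, 5), (22, 5), (22, 5)],
   [(22, 4), (25, 3), (25, 5), (25, 5), (24, 5), (24, 5), (22, 5), (22, 5), (22, 5), (22, 5),
    (23, 5), (23, 5), (23, 5), (23, 5), (24, 5), (25, 5)]]

def tabE (r d : ℕ) : ℕ × ℕ := if d < 15 then (0, 0) else (tab.getD r []).getD (d - 15) (0, 0)

def lam : ℕ → ℕ × ℕ
  | 0 => (0, 0)
  | 1 => (6, 0)
  | 2 => (7, 0)
  | 3 => (8, 0)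
  | 4 => (3, 3)
  | _ => (12000, 0)

def certk (i j : ℕ) : ℕ :=
  if (j + 60 - i) % 60 ≤ 30 then (i + (tabE (i % 5) ((j + 60 - i) % 60)).1) % 60
  else (j + 30 + (tabE (j % 5) (60 - (j + 60 - i) % 60)).1) % 60

def certl (i j : ℕ) : ℕ × ℕ :=
  if (j + 60 - i) % 60 ≤ 30 then lam (tabE (i % 5) ((j + 60 - i) % 60)).2
  else lam (tabE (j % 5) (60 - (j + 60 - i) % 60)).2

/-- the integer form of the corner inequality -/
def corner (i j a b k m : ℕ) (l n : ℤ) : Prop :=
  -296 * (cc i * cc j * cc k * cc m) + 733 * l * (cc i * cc j * cc k * cc m)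
    + 733 * n * (cc i * cc j * cc k * cc m)
    - 2000 * GG i b * (cc j * cc k * cc m) - 2000 * GG j a * (cc i * cc k * cc m)
    - 500 * l * (GG k b - GG k a) * (cc i * cc j * cc m)
    - 500 * n * (GG m b - GG m a) * (cc i * cc j * cc k) ≤ 0

instance (i j a b k m : ℕ) (l n : ℤ) : Decidable (corner i j a b k m l n) := by
  unfold corner; infer_instance

def Chk (i j k m : ℕ) (l n : ℤ) : Prop :=
  corner i j i j k m l n ∧ corner i j i (j + 1) k m l n ∧ corner i j (i + 1) j k m l n ∧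
    corner i j (i + 1) (j + 1) k m l n

instance (i j k m : ℕ) (l n : ℤ) : Decidable (Chk i j k m l n) := by
  unfold Chk; infer_instance

theorem chk_all : ∀ i < 60, ∀ j < 60,
    Chk i j (certk i j) ((certk i j + 1) % 60) ((certl i j).1 : ℤ) ((certl i j).2 : ℤ) := by
  decide +kernel


theorem certk_lt : ∀ i < 60, ∀ j < 60, certk i j < 60 := by decide +kernel

theorem geom : ∀ i < 60, 0 < cc i ∧ 0 < cc (i + 1) ∧ 0 < cc (i + 59) ∧
    0 < dx i * dy (i + 1) - dy i * dx (i + 1) ∧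
    0 < dx (i + 59) * dy i - dy (i + 59) * dx i := by decide +kernel

theorem half : ∀ i < 30, dx (i + 30) = -dx i ∧ dy (i + 30) = -dy i ∧ cc (i + 30) = cc i := by
  decide +kernel

theorem per : ∀ i < 60, vx (i + 60) = vx i ∧ vy (i + 60) = vy i := by
  decide +kernel

theorem mod60 (i : ℕ) : vx (i % 60) = vx i ∧ vy (i % 60) = vy i := by
  simp [vx, vy]

theorem dmod (i : ℕ) : dx (i % 60) = dx i ∧ dy (i % 60) = dy i ∧ cc (i % 60) = cc i := by
  have h1 : vx (i % 60 + 1) = vx (i + 1) := by simp [vx]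
  have h2 : vy (i % 60 + 1) = vy (i + 1) := by simp [vy]
  obtain ⟨h3, h4⟩ := mod60 i
  refine ⟨?_, ?_, ?_⟩ <;> simp only [dx, dy, cc, h1, h2, h3, h4]

/-- the functional belonging to the edge `i` -/
noncomputable def g (i : ℕ) (z : ℝ × ℝ) : ℝ :=
  (z.1 * (dy i : ℝ) - z.2 * (dx i : ℝ)) / (cc i : ℝ)

theorem g_add (i : ℕ) (z w : ℝ × ℝ) : g i (z + w) = g i z + g i w := by
  simp only [g, Prod.fst_add, Prod.snd_add]; ring

theorem g_smul (i : ℕ) (t : ℝ) (z : ℝ × ℝ) : g i (t • z) = t * g i z := by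
  simp only [g, Prod.smul_fst, Prod.smul_snd, smul_eq_mul]; ring

theorem g_sub (i : ℕ) (z w : ℝ × ℝ) : g i (z - w) = g i z - g i w := by
  simp only [g, Prod.fst_sub, Prod.snd_sub]; ring

theorem g_mod (i : ℕ) (z : ℝ × ℝ) : g (i % 60) z = g i z := by
  obtain ⟨h1, h2, h3⟩ := dmod i
  simp only [g, h1, h2, h3]

theorem g_half (i : ℕ) (hi : i < 30) (z : ℝ × ℝ) : g (i + 30) z = -g i z := by
  obtain ⟨h1, h2, h3⟩ := half i hi
  simp only [g, h1, h2, h3]
  push_cast
  ring

/-- the embedding of the plane into `ℓ_∞^30` -/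
noncomputable def Phi : ℝ × ℝ →ₗ[ℝ] (Fin 30 → ℝ) where
  toFun z := fun k => g k z
  map_add' z w := by funext k; simp [g_add]
  map_smul' t z := by funext k; simp [g_smul]

theorem Phi_apply (z : ℝ × ℝ) (k : Fin 30) : Phi z k = g k z := rfl

theorem g_le_norm (z : ℝ × ℝ) (i : ℕ) (hi : i < 60) : g i z ≤ ‖Phi z‖ := by
  by_cases h : i < 30
  · have h1 := norm_le_pi_norm (Phi z) ⟨i, h⟩
    rw [Phi_apply, Real.norm_eq_abs] at h1
    exact le_trans (le_abs_self _) h1
  · obtain ⟨k, rfl⟩ : ∃ k, i = k + 30 := ⟨i - 30, by omega⟩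
    have hk : k < 30 := by omega
    have h1 := norm_le_pi_norm (Phi z) ⟨k, hk⟩
    rw [Phi_apply, Real.norm_eq_abs] at h1
    rw [g_half k hk]
    exact le_trans (neg_le_abs _) h1

theorem norm_lt_of (z : ℝ × ℝ) (r : ℝ) (h : ∀ i < 60, g i z < r) : ‖Phi z‖ < r := by
  have h0 := h 0 (by norm_num)
  have h30 := h 30 (by norm_num)
  have h30' : g 30 z = -g 0 z := g_half 0 (by norm_num) z
  have hr : 0 < r := by linarith
  rw [pi_norm_lt_iff hr]
  intro k
  rw [Phi_apply, Real.norm_eq_abs, abs_lt]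
  have h1 := h k (by have := k.2; omega)
  have h2 := h (k + 30) (by have := k.2; omega)
  rw [g_half k k.2] at h2
  constructor <;> linarith

theorem Phi_inj : Function.Injective Phi := by
  rw [← LinearMap.ker_eq_bot, LinearMap.ker_eq_bot']
  intro z hz
  have h0 : g 0 z = 0 := by
    have := congrFun hz 0
    simpa [Phi_apply] using this
  have h1 : g 15 z = 0 := by
    have := congrFun hz 15
    simpa [Phi_apply] using this
  have e0 : dx 0 = -27 ∧ dy 0 = 303 ∧ cc 0 = 3083736 := by decide +kernel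
  have e1 : dx 15 = -303 ∧ dy 15 = -27 ∧ cc 15 = 3083736 := by decide +kernel
  obtain ⟨a1, a2, a3⟩ := e0
  obtain ⟨b1, b2, b3⟩ := e1
  simp only [g, a1, a2, a3] at h0
  simp only [g, b1, b2, b3] at h1
  push_cast at h0 h1
  have h0' : z.1 * 303 - z.2 * (-27) = 0 := by
    have := div_eq_zero_iff.1 h0
    rcases this with h | h
    · exact h
    · norm_num at h
  have h1' : z.1 * (-27) - z.2 * (-303) = 0 := by
    have := div_eq_zero_iff.1 h1
    rcases this with h | h
    · exact h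
    · norm_num at h
  have hz2 : z.2 = 0 := by linarith
  have hz1 : z.1 = 0 := by linarith
  exact Prod.ext hz1 hz2

/-- the vertex `i` of the polygon -/
noncomputable def V (i : ℕ) : ℝ × ℝ := ((vx i : ℝ), (vy i : ℝ))

theorem g_V (i a : ℕ) : g i (V a) = (GG i a : ℝ) / (cc i : ℝ) := by
  simp only [g, V, GG]
  push_cast
  ring

theorem corner_real (i j a b k m : ℕ) (l n : ℤ) (hi : 0 < cc i) (hj : 0 < cc j) (hk : 0 < cc k)
    (hm : 0 < cc m) (h : corner i j a b k m l n) :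
    2 - g i (V b) - g j (V a) - (l : ℝ) / 4 * (g k (V b) - g k (V a) - 733 / 500)
      - (n : ℝ) / 4 * (g m (V b) - g m (V a) - 733 / 500) ≤ 2148 / 1000 := by
  have hi' : (0 : ℝ) < cc i := by exact_mod_cast hi
  have hj' : (0 : ℝ) < cc j := by exact_mod_cast hj
  have hk' : (0 : ℝ) < cc k := by exact_mod_cast hk
  have hm' : (0 : ℝ) < cc m := by exact_mod_cast hm
  unfold corner at h
  have h' : (((-296 * (cc i * cc j * cc k * cc m) + 733 * l * (cc i * cc j * cc k * cc m)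
    + 733 * n * (cc i * cc j * cc k * cc m)
    - 2000 * GG i b * (cc j * cc k * cc m) - 2000 * GG j a * (cc i * cc k * cc m)
    - 500 * l * (GG k b - GG k a) * (cc i * cc j * cc m)
    - 500 * n * (GG m b - GG m a) * (cc i * cc j * cc k) : ℤ)) : ℝ) ≤ 0 := by exact_mod_cast h
  push_cast at h'
  simp only [g_V]
  rw [← sub_nonpos]
  have hP : (0 : ℝ) < 2000 * ((cc i : ℝ) * cc j * cc k * cc m) := by positivity
  have key : 2 - (GG i b : ℝ) / (cc i : ℝ) - (GG j a : ℝ) / (cc j : ℝ)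
      - (l : ℝ) / 4 * ((GG k b : ℝ) / (cc k : ℝ) - (GG k a : ℝ) / (cc k : ℝ) - 733 / 500)
      - (n : ℝ) / 4 * ((GG m b : ℝ) / (cc m : ℝ) - (GG m a : ℝ) / (cc m : ℝ) - 733 / 500)
      - 2148 / 1000
      = (-296 * ((cc i : ℝ) * cc j * cc k * cc m) + 733 * l * ((cc i : ℝ) * cc j * cc k * cc m)
    + 733 * n * ((cc i : ℝ) * cc j * cc k * cc m)
    - 2000 * GG i b * ((cc j : ℝ) * cc k * cc m) - 2000 * GG j a * ((cc i : ℝ) * cc k * cc m)
    - 500 * l * ((GG k b : ℝ) - GG k a) * ((cc i : ℝ) * cc j * cc m)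
    - 500 * n * ((GG m b : ℝ) - GG m a) * ((cc i : ℝ) * cc j * cc k))
      / (2000 * ((cc i : ℝ) * cc j * cc k * cc m)) := by
    field_simp
    ring
  rw [key]
  exact div_nonpos_of_nonpos_of_nonneg h' hP.le

theorem bilin (s t P Q W c : ℝ) (hs0 : 0 ≤ s) (hs1 : s ≤ 1) (ht0 : 0 ≤ t) (ht1 : t ≤ 1)
    (h00 : P ≤ c) (h10 : P + Q ≤ c) (h01 : P + W ≤ c) (h11 : P + Q + W ≤ c) :
    P + Q * s + W * t ≤ c := by
  have e : P + Q * s + W * t = (1 - s) * (1 - t) * P + s * (1 - t) * (P + Q)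
      + (1 - s) * t * (P + W) + s * t * (P + Q + W) := by ring
  have e2 : c = (1 - s) * (1 - t) * c + s * (1 - t) * c + (1 - s) * t * c + s * t * c := by ring
  have s1 : 0 ≤ 1 - s := by linarith
  have t1 : 0 ≤ 1 - t := by linarith
  rw [e, e2]
  gcongr

/-- the point at position `s` on the edge `i` -/
noncomputable def E (i : ℕ) (s : ℝ) : ℝ × ℝ := V i + s • (V (i + 1) - V i)

theorem g_E (k i : ℕ) (s : ℝ) : g k (E i s) = g k (V i) + s * (g k (V (i + 1)) - g k (V i)) := by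
  simp only [E, g_add, g_smul, g_sub]

/-- the numerical heart -/
theorem edge_bound (i j : ℕ) (hi : i < 60) (hj : j < 60) (s t : ℝ) (hs0 : 0 ≤ s) (hs1 : s ≤ 1)
    (ht0 : 0 ≤ t) (ht1 : t ≤ 1)
    (hd : ∀ k < 60, g k (E j t) - g k (E i s) ≤ 733 / 500) :
    2 - g i (E j t) - g j (E i s) ≤ 2148 / 1000 := by
  obtain ⟨c1, c2, c3, c4⟩ := chk_all i hi j hj
  have hk := certk_lt i hi j hj
  set k := certk i j with hkdef
  set l := (certl i j).1 with hl
  set n := (certl i j).2 with hn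
  have hm : (k + 1) % 60 < 60 := Nat.mod_lt _ (by norm_num)
  set m := (k + 1) % 60 with hmdef
  have gi := (geom i hi).1
  have gj := (geom j hj).1
  have gk := (geom k hk).1
  have gm := (geom m hm).1
  have r1 := corner_real i j i j k m l n gi gj gk gm c1
  have r2 := corner_real i j i (j + 1) k m l n gi gj gk gm c2
  have r3 := corner_real i j (i + 1) j k m l n gi gj gk gm c3
  have r4 := corner_real i j (i + 1) (j + 1) k m l n gi gj gk gm c4
  have d1 := hd k hk
  have d2 := hd m hm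
  simp only [g_E] at d1 d2 ⊢
  have hl0 : (0 : ℝ) ≤ (l : ℝ) / 4 := by positivity
  have hn0 : (0 : ℝ) ≤ (n : ℝ) / 4 := by positivity
  have q1 := mul_le_mul_of_nonneg_left d1 hl0
  have q2 := mul_le_mul_of_nonneg_left d2 hn0
  push_cast at r1 r2 r3 r4
  have big := bilin s t
    (2 - g i (V j) - g j (V i) - (l : ℝ) / 4 * (g k (V j) - g k (V i) - 733 / 500)
      - (n : ℝ) / 4 * (g m (V j) - g m (V i) - 733 / 500))
    (-(g j (V (i + 1)) - g j (V i)) + (l : ℝ) / 4 * (g k (V (i + 1)) - g k (V i))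
      + (n : ℝ) / 4 * (g m (V (i + 1)) - g m (V i)))
    (-(g i (V (j + 1)) - g i (V j)) - (l : ℝ) / 4 * (g k (V (j + 1)) - g k (V j))
      - (n : ℝ) / 4 * (g m (V (j + 1)) - g m (V j)))
    (2148 / 1000) hs0 hs1 ht0 ht1 (by linarith) (by linarith) (by linarith) (by linarith)
  linarith

theorem on_edge (i : ℕ) (hi : i < 60) (z : ℝ × ℝ) (h : g i z = 1) (hle : ∀ k < 60, g k z ≤ 1) :
    ∃ s : ℝ, 0 ≤ s ∧ s ≤ 1 ∧ z = E i s := by
  obtain ⟨h1, h2, h3, h4, h5⟩ := geom i hi
  have n1 : g (i + 1) z ≤ 1 := by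
    rw [← g_mod]; exact hle _ (Nat.mod_lt _ (by norm_num))
  have n2 : g (i + 59) z ≤ 1 := by
    rw [← g_mod]; exact hle _ (Nat.mod_lt _ (by norm_num))
  have k1 : (0 : ℝ) < cc i := by exact_mod_cast h1
  have k2 : (0 : ℝ) < cc (i + 1) := by exact_mod_cast h2
  have k3 : (0 : ℝ) < cc (i + 59) := by exact_mod_cast h3
  have k4 : (0 : ℝ) < dx i * dy (i + 1) - dy i * dx (i + 1) := by exact_mod_cast h4
  have k5 : (0 : ℝ) < dx (i + 59) * dy i - dy (i + 59) * dx i := by exact_mod_cast h5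
  obtain ⟨x, y⟩ := z
  simp only [g] at h n1 n2
  rw [div_eq_one_iff_eq k1.ne'] at h
  rw [div_le_one k2] at n1
  rw [div_le_one k3] at n2
  have p1 : vx (i + 59 + 1) = vx i := (per i hi).1
  have p2 : vy (i + 59 + 1) = vy i := (per i hi).2
  have e1 : (cc i : ℝ) = vx i * dy i - vy i * dx i := by simp only [cc]; push_cast; ring
  have e2 : (cc (i + 1) : ℝ) = (vx i + dx i) * dy (i + 1) - (vy i + dy i) * dx (i + 1) := by
    simp only [cc, dx, dy]; push_cast; ring
  have e3 : (cc (i + 59) : ℝ) = vx i * dy (i + 59) - vy i * dx (i + 59) := by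
    have q1 : dx (i + 59) = vx i - vx (i + 59) := by simp only [dx, p1]
    have q2 : dy (i + 59) = vy i - vy (i + 59) := by simp only [dy, p2]
    have : cc (i + 59) = vx i * dy (i + 59) - vy i * dx (i + 59) := by
      simp only [cc, q1, q2]; ring
    rw [this]; push_cast; ring
  set a : ℝ := (dx i : ℝ) with ha
  set b : ℝ := (dy i : ℝ) with hb
  have hab : 0 < a ^ 2 + b ^ 2 := by
    by_contra hcon
    have ha0 : a = 0 := by nlinarith [sq_nonneg a, sq_nonneg b]
    have hb0 : b = 0 := by nlinarith [sq_nonneg a, sq_nonneg b]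
    rw [ha0, hb0] at k4
    linarith
  have par : (x - vx i) * b = (y - vy i) * a := by linarith
  set s : ℝ := ((x - vx i) * a + (y - vy i) * b) / (a ^ 2 + b ^ 2) with hs
  have sx : x = vx i + s * a := by
    rw [hs, div_mul_eq_mul_div, ← sub_eq_iff_eq_add', eq_div_iff hab.ne']
    linear_combination b * par
  have sy : y = vy i + s * b := by
    rw [hs, div_mul_eq_mul_div, ← sub_eq_iff_eq_add', eq_div_iff hab.ne']
    linear_combination -a * par
  refine ⟨s, ?_, ?_, ?_⟩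
  · have : s * (((dx (i + 59) : ℤ) : ℝ) * b - ((dy (i + 59) : ℤ) : ℝ) * a) ≥ 0 := by
      rw [e3, sx, sy] at n2
      linarith
    exact nonneg_of_mul_nonneg_left this k5
  · have : (1 - s) * (a * ((dy (i + 1) : ℤ) : ℝ) - b * ((dx (i + 1) : ℤ) : ℝ)) ≥ 0 := by
      rw [e2, sx, sy] at n1
      linarith
    have := nonneg_of_mul_nonneg_left this k4
    linarith
  · have f1 : ((vx (i + 1) : ℤ) : ℝ) = vx i + a := by simp only [ha, dx]; push_cast; ring
    have f2 : ((vy (i + 1) : ℤ) : ℝ) = vy i + b := by simp only [hb, dy]; push_cast; ring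
    simp only [E, V, f1, f2]
    ext
    · simp [sx]
    · simp [sy]

/-! ### The plane -/

/-- the plane, as a subspace of `ℓ_∞^30` -/
noncomputable abbrev Pl : Submodule ℝ (Fin 30 → ℝ) := LinearMap.range Phi

theorem finrank_Pl : Module.finrank ℝ Pl = 2 := by
  rw [LinearMap.finrank_range_of_inj Phi_inj]
  simp [Module.finrank_prod]

theorem active (x y : Pl) (z w : ℝ × ℝ) (hz : Phi z = x) (hw : Phi w = y) (hx : ‖x‖ = 1)
    (p : Pl →L[ℝ] ℝ) (hp : p ∈ J1 Pl x) : ∃ i < 60, g i z = 1 ∧ g i w ≤ p y := by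
  by_contra hcon
  push Not at hcon
  obtain ⟨hp1, hp2⟩ := hp
  rw [hx] at hp2
  have hxn : ‖Phi z‖ = 1 := by rw [hz]; exact hx
  have hle : ∀ i < 60, g i z ≤ 1 := fun i hi => by rw [← hxn]; exact g_le_norm z i hi
  have ev : ∀ i ∈ Finset.range 60, ∀ᶠ h : ℝ in nhdsWithin 0 (Ioi 0),
      g i z - h * g i w < 1 - h * p y := by
    intro i hi
    rw [Finset.mem_range] at hi
    rcases (hle i hi).lt_or_eq with hlt | heq
    · have hc : Filter.Tendsto (fun h : ℝ => (1 - h * p y) - (g i z - h * g i w)) (nhds 0)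
          (nhds ((1 - 0 * p y) - (g i z - 0 * g i w))) := by
        apply Continuous.tendsto
        fun_prop
      have hpos : (0 : ℝ) < (1 - 0 * p y) - (g i z - 0 * g i w) := by linarith
      have := hc.eventually (lt_mem_nhds hpos)
      have := this.filter_mono (nhdsWithin_le_nhds (s := Ioi 0))
      filter_upwards [this] with h hh
      linarith
    · have h1 := hcon i hi heq
      filter_upwards [self_mem_nhdsWithin] with h hh
      have hh' : (0 : ℝ) < h := hh
      rw [heq]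
      have := mul_lt_mul_of_pos_left h1 hh'
      linarith
  have ev2 := (Finset.eventually_all (Finset.range 60)).2 ev
  obtain ⟨h, hh⟩ := ev2.exists
  have hn : ‖Phi (z - h • w)‖ < 1 - h * p y := by
    apply norm_lt_of
    intro i hi
    rw [g_sub, g_smul]
    exact hh i (Finset.mem_range.2 hi)
  have e1 : Phi (z - h • w) = ((x - h • y : Pl) : Fin 30 → ℝ) := by
    rw [map_sub, map_smul, hz, hw]; rfl
  rw [e1] at hn
  have hn' : ‖x - h • y‖ < 1 - h * p y := hn
  have e2 : p (x - h • y) = 1 - h * p y := by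
    rw [map_sub, map_smul, hp2, smul_eq_mul]
  have e3 := p.le_opNorm (x - h • y)
  rw [hp1, one_mul, e2, Real.norm_eq_abs] at e3
  have := le_abs_self (1 - h * p y)
  linarith

theorem bound (r : ℝ) (hr : r ∈ gammaSet Pl (733 / 500)) : r ≤ 2148 / 1000 := by
  obtain ⟨x₁, x₂, h1, h2, h3, p₁, hp1, p₂, hp2, rfl⟩ := hr
  obtain ⟨z, hz⟩ := x₁.2
  obtain ⟨w, hw⟩ := x₂.2
  obtain ⟨i, hi, i1, i2⟩ := active x₁ x₂ z w hz hw h1 p₁ hp1
  obtain ⟨j, hj, j1, j2⟩ := active x₂ x₁ w z hw hz h2 p₂ hp2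
  have nz : ‖Phi z‖ = 1 := by rw [hz]; exact h1
  have nw : ‖Phi w‖ = 1 := by rw [hw]; exact h2
  obtain ⟨s, s0, s1, rfl⟩ := on_edge i hi z i1 (fun k hk => by rw [← nz]; exact g_le_norm z k hk)
  obtain ⟨t, t0, t1, rfl⟩ := on_edge j hj w j1 (fun k hk => by rw [← nw]; exact g_le_norm w k hk)
  have hd : ∀ k < 60, g k (E j t) - g k (E i s) ≤ 733 / 500 := by
    intro k hk
    have := g_le_norm (E j t - E i s) k hk
    rw [g_sub] at this
    refine le_trans this ?_
    rw [map_sub, hz, hw, ← h3, norm_sub_rev x₁ x₂]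
    exact le_of_eq rfl
  have := edge_bound i j hi hj s t s0 s1 t0 t1 hd
  have e : (p₁ - p₂) (x₁ - x₂) = 2 - p₁ x₂ - p₂ x₁ := by
    have q1 : p₁ x₁ = 1 := by rw [hp1.2, h1]
    have q2 : p₂ x₂ = 1 := by rw [hp2.2, h2]
    rw [_root_.sub_apply, map_sub, map_sub, q1, q2]
    ring
  rw [e]
  linarith

theorem gammaSet_nonempty (X : Type*) [NormedAddCommGroup X] [NormedSpace ℝ X]
    (hX : 2 ≤ Module.finrank ℝ X) (ε : ℝ) (h0 : 0 ≤ ε) (h2 : ε ≤ 2) : (gammaSet X ε).Nonempty := by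
  have hfin : Module.Finite ℝ X := Module.finite_of_finrank_pos (by omega)
  have hrank : 1 < Module.rank ℝ X := by
    rw [← Module.finrank_eq_rank]
    exact_mod_cast hX
  have hnt : Nontrivial X := Module.nontrivial_of_finrank_pos (R := ℝ) (by omega)
  have hconn : IsConnected (Metric.sphere (0 : X) 1) := isConnected_sphere hrank 0 (by norm_num)
  obtain ⟨x, hx⟩ := hconn.nonempty
  have hx1 : ‖x‖ = 1 := by simpa using hx
  have hcont : ContinuousOn (fun y : X => ‖x - y‖) (Metric.sphere (0 : X) 1) := by fun_prop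
  have himg := (hconn.image _ hcont).isPreconnected
  have hm0 : (0 : ℝ) ∈ (fun y : X => ‖x - y‖) '' Metric.sphere (0 : X) 1 := ⟨x, hx, by simp⟩
  have hm2 : (2 : ℝ) ∈ (fun y : X => ‖x - y‖) '' Metric.sphere (0 : X) 1 := by
    refine ⟨-x, by simpa using hx, ?_⟩
    simp only [sub_neg_eq_add]
    rw [← two_smul ℝ x, norm_smul, hx1]
    norm_num
  have hmem : ε ∈ (fun y : X => ‖x - y‖) '' Metric.sphere (0 : X) 1 :=
    himg.ordConnected.out hm0 hm2 ⟨h0, h2⟩
  obtain ⟨y, hy, hxy⟩ := hmem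
  have hy1 : ‖y‖ = 1 := by simpa using hy
  obtain ⟨p₁, hp1, hp1'⟩ := exists_dual_vector ℝ x (by rw [← norm_ne_zero_iff, hx1]; norm_num)
  obtain ⟨p₂, hp2, hp2'⟩ := exists_dual_vector ℝ y (by rw [← norm_ne_zero_iff, hy1]; norm_num)
  exact ⟨(p₁ - p₂) (x - y), x, y, hx1, hy1, hxy, p₁, ⟨hp1, by simpa using hp1'⟩, p₂,
    ⟨hp2, by simpa using hp2'⟩, rfl⟩

/-- There is a two-dimensional real normed space `X` with `γ⁺_X(1.466) < 1.466²`; so the bound
`ε² ≤ γ⁺_X(ε)` does not hold for all finite-dimensional spaces of dimension at least two. -/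
theorem result :
    (∃ X : Submodule ℝ (Fin 30 → ℝ), Module.finrank ℝ X = 2 ∧
      (gammaSet X (733 / 500)).Nonempty ∧ BddAbove (gammaSet X (733 / 500)) ∧
      gammaPlus X (733 / 500) < (733 / 500) ^ 2) ∧
    ¬ ∀ (X : Type) [NormedAddCommGroup X] [NormedSpace ℝ X] [FiniteDimensional ℝ X],
      2 ≤ Module.finrank ℝ X → ∀ ε ∈ Icc (0 : ℝ) 2,
        gammaMinus X ε ≤ ε ^ 2 ∧ ε ^ 2 ≤ gammaPlus X ε := by
  have hne : (gammaSet Pl (733 / 500)).Nonempty :=
    gammaSet_nonempty Pl finrank_Pl.ge _ (by norm_num) (by norm_num)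
  have hlt : gammaPlus Pl (733 / 500) < (733 / 500) ^ 2 := by
    have : gammaPlus Pl (733 / 500) ≤ 2148 / 1000 := csSup_le hne bound
    refine lt_of_le_of_lt this ?_
    norm_num
  refine ⟨⟨Pl, finrank_Pl, hne, ⟨_, bound⟩, hlt⟩, ?_⟩
  intro hall
  have := (hall Pl finrank_Pl.ge (733 / 500) ⟨by norm_num, by norm_num⟩).2
  exact absurd this (not_le.2 hlt)

end Pool.Agent.Results.MP_a1f11a_an.PlaneBelowHilbert
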